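import Mathlib

set_option autoImplicit false
open Cardinal Set

namespace Pool.Agent.Results.MP_af0a18_lc.Neg

/-- The principle D(ν,κ), ν = #X. -/
def DD (X : Type) (κ : Cardinal.{0}) : Prop :=
  ∀ F : Set (X → ℕ), #F < κ → ∃ g : X → ℕ, ∀ f ∈ F, #{x : X // f x < g x} = #X

/-- The principle E(ν,κ), ν = #X. -/
def EE (X : Type) (κ : Cardinal.{0}) : Prop :=
  ∀ (F : Set (X → ℕ)) (𝒜 : Set (Set X)), #F < κ → #𝒜 < κ → (∀ A ∈ 𝒜, #A = #X) →
    ∃ g : X → ℕ, ∀ f ∈ F, ∀ A ∈ 𝒜, #{x : X // x ∈ A ∧ f x < g x} = #X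

open Classical in
noncomputable def hh {X : Type} (S : Set X) (p : (ℕ → X) × (ℕ → Set ℕ) × X) : ℕ :=
  if h : ∃ n, p.2.1 n = p.1 ⁻¹' S then h.choose else 0

lemma hh_spec {X : Type} (S : ℕ → Set X) (hS : Function.Injective S) :
    ∃ s : ℕ → X, ∃ t : ℕ → Set ℕ, ∀ x n, hh (S n) (s, t, x) = n := by
  have h1 : ∀ m n : ℕ, ∃ x : X, m ≠ n → ¬ (x ∈ S m ↔ x ∈ S n) := by
    intro m n
    by_cases h : m = n
    · have : S 0 ≠ S 1 := fun e => by simpa using hS e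
      by_contra hc
      apply this
      ext x
      exact absurd ⟨x, fun h' => absurd h h'⟩ hc
    · by_contra hc
      push Not at hc
      exact h (hS (Set.ext fun x => (hc x).2))
  choose x hx using h1
  let s : ℕ → X := fun k => x (Nat.unpair k).1 (Nat.unpair k).2
  have hinj : ∀ m n, s ⁻¹' S m = s ⁻¹' S n → m = n := by
    intro m n e
    by_contra hne
    apply hx m n hne
    have := Set.ext_iff.1 e (Nat.pair m n)
    simpa [s] using this
  refine ⟨s, fun n => s ⁻¹' S n, fun y n => ?_⟩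
  have hex : ∃ k, (fun n => s ⁻¹' S n) k = s ⁻¹' S n := ⟨n, rfl⟩
  unfold hh
  rw [dif_pos hex]
  exact hinj _ _ hex.choose_spec

theorem dd (X : Type) [Infinite X] (hX : #X ^ ℵ₀ = #X) : DD X (2 ^ #X) := by
  have hinf : ℵ₀ ≤ #X := aleph0_le_mk X
  have hc : (2 : Cardinal.{0}) ^ ℵ₀ ≤ #X := by
    rw [← hX]
    exact power_le_power_right ((nat_lt_aleph0 2).le.trans hinf)
  have hP : #((ℕ → X) × (ℕ → Set ℕ) × X) = #X := by
    have e1 : #(ℕ → X) = #X := by simp [hX]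
    have e2 : #(ℕ → Set ℕ) = 2 ^ ℵ₀ := by simp
    rw [mk_prod, mk_prod, lift_id, lift_id, lift_id, lift_id, e1, e2,
      mul_eq_right hinf hc (power_ne_zero _ two_ne_zero), mul_eq_self hinf]
  obtain ⟨e⟩ := Cardinal.eq.1 hP
  intro F hF
  by_contra hcon
  push Not at hcon
  choose φ hφF hφ using fun S : Set X => hcon (fun x => hh S (e.symm x))
  have hfib : ∃ a : F, Infinite ((fun S : Set X => (⟨φ S, hφF S⟩ : F)) ⁻¹' {a}) := by
    by_cases hfin : Finite F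
    · exact Finite.exists_infinite_fiber _
    · haveI := not_finite_iff_infinite.1 hfin
      exact Cardinal.exists_infinite_fiber _ (by rw [mk_set]; exact hF)
  obtain ⟨a, ha⟩ := hfib
  let S : ℕ → Set X := fun n => (Infinite.natEmbedding _ n : ↥((fun S : Set X => (⟨φ S, hφF S⟩ : F)) ⁻¹' {a})).1
  have hSi : Function.Injective S := fun m n h =>
    (Infinite.natEmbedding _).injective (Subtype.ext h)
  have hSa : ∀ n, φ (S n) = a.1 := fun n => congrArg Subtype.val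
    (Infinite.natEmbedding (↥((fun S : Set X => (⟨φ S, hφF S⟩ : F)) ⁻¹' {a})) n).2
  obtain ⟨s, t, hst⟩ := hh_spec S hSi
  let B : ℕ → Type := fun n => {x : X // φ (S n) x < hh (S n) (e.symm x)}
  have hB : ∀ n, #(B n) < #X := fun n => lt_of_le_of_ne (mk_subtype_le _) (hφ (S n))
  have h2 : sum (fun n => #(B n)) < prod (fun _ : ℕ => #X) := sum_lt_prod _ _ hB
  rw [prod_const, lift_id, lift_uzero, mk_nat, hX, ← mk_sigma] at h2
  refine absurd h2 (not_lt.2 ?_)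
  refine mk_le_of_injective (f := fun x => (⟨a.1 (e (s, t, x)) + 1, e (s, t, x), ?_⟩ : Σ n, B n)) ?_
  · rw [hSa, e.symm_apply_apply, hst]; omega
  · intro x y h
    have h3 : e (s, t, x) = e (s, t, y) := congrArg (fun p : Σ n, B n => p.2.1) h
    simpa using h3

theorem not_ee (X : Type) [Infinite X] (U : Ultrafilter X) [CountableInterFilter (U : Filter X)]
    (hU : ∀ A ∈ U, #A = #X) (ℬ : Set (Set X)) (hB : ∀ B ∈ ℬ, B ∈ U)
    (hb : ∀ A ∈ U, ∃ B ∈ ℬ, B ⊆ A) (κ : Cardinal.{0}) (hκ : ℵ₀ < κ) (hc : #ℬ < κ) : ¬ EE X κ := by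
  intro h
  obtain ⟨g, hg⟩ := h (range fun n : ℕ => fun _ => n) ℬ
    (lt_of_le_of_lt (countable_range _).le_aleph0 hκ) hc (fun A hA => hU A (hB A hA))
  have hn : ∃ n, {x | g x = n} ∈ U := by
    by_contra hc
    push Not at hc
    have : (⋂ n, {x | g x = n}ᶜ) ∈ (U : Filter X) :=
      countable_iInter_mem.2 fun n => Ultrafilter.compl_mem_iff_notMem.2 (hc n)
    obtain ⟨x, hx⟩ := U.nonempty_of_mem this
    exact (mem_iInter.1 hx (g x)) rfl
  obtain ⟨n, hn⟩ := hn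
  obtain ⟨B, hBB, hBs⟩ := hb _ hn
  have h1 := hg _ ⟨n, rfl⟩ B hBB
  have : IsEmpty {x : X // x ∈ B ∧ n < g x} := ⟨fun x => by
    have := hBs x.2.1
    have h2 := x.2.2
    simp only [mem_setOf_eq] at this
    omega⟩
  have h0 : #{x : X // x ∈ B ∧ n < g x} = 0 := mk_eq_zero _
  exact (mk_ne_zero X) (h1.symm.trans h0)

theorem result (X : Type) [Infinite X] (hX : #X ^ ℵ₀ = #X) :
    DD X (2 ^ #X) ∧
    ∀ (U : Ultrafilter X), CountableInterFilter (U : Filter X) → (∀ A ∈ U, #A = #X) →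
      ∀ ℬ : Set (Set X), (∀ B ∈ ℬ, B ∈ U) → (∀ A ∈ U, ∃ B ∈ ℬ, B ⊆ A) → #ℬ < 2 ^ #X →
        DD X (2 ^ #X) ∧ ¬ EE X (2 ^ #X) := by
  refine ⟨dd X hX, fun U hU h1 ℬ h2 h3 h4 => ⟨dd X hX, ?_⟩⟩
  exact not_ee X U h1 ℬ h2 h3 _ (lt_of_le_of_lt (aleph0_le_mk X) (cantor _)) h4

end Pool.Agent.Results.MP_af0a18_lc.Neg
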